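import Pool.Agent.Lib.MP_25ed17_al.H5.Three

/-!
The system u-invariant, and the three-block inequality.
-/

namespace Pool.Agent.Lib.MP_25ed17_al.SU

universe u

/-- There is an anisotropic system `q` of `r` quadratic forms in `n` variables over `F` such
that, for some `m > 0`, the orthogonal sum of `m` copies of `q` vanishes on a subspace of
dimension at least half the dimension `m * n` of its domain. -/
def HasSystem (F : Type u) [Field F] (r n : ℕ) : Prop :=
  ∃ q : QuadraticMap F (Fin n → F) (Fin r → F),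
    (∀ x, q x = 0 → x = 0) ∧
    ∃ m : ℕ, 0 < m ∧
      ∃ W : Submodule F (Fin m → Fin n → F),
        m * n ≤ 2 * Module.finrank F W ∧
        ∀ x ∈ W, ∑ i, q (x i) = 0

/-- The system u-invariant `u_r(F)`. -/
noncomputable def sysU (F : Type u) [Field F] (r : ℕ) : ℕ∞ :=
  ⨆ n : {n : ℕ // HasSystem F r n}, ((n : ℕ) : ℕ∞)

open Lib.MP_25ed17_al Lib.MP_25ed17_al.H5

theorem hasSystem_iff {F : Type u} [Field F] (hF : IsSumSq (-1 : F)) {r n : ℕ} :
    HasSystem F r n ↔
      ∃ q : QuadraticMap F (Fin n → F) (Fin r → F), ∀ x, q x = 0 → x = 0 :=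
  ⟨fun ⟨q, hq, _⟩ => ⟨q, hq⟩, fun ⟨q, hq⟩ => ⟨q, hq, exists_metabolic hF q⟩⟩

theorem le_sysU {F : Type u} [Field F] {r n : ℕ} (h : HasSystem F r n) :
    (n : ℕ∞) ≤ sysU F r :=
  le_iSup (fun n : {n : ℕ // HasSystem F r n} => ((n : ℕ) : ℕ∞)) ⟨n, h⟩

theorem isSumSq_map {F : Type u} [Field F] {s : F} (hs : IsSumSq s) :
    IsSumSq (HahnSeries.C s : LaurentSeries F) := by
  induction hs with
  | zero => rw [map_zero]; exact IsSumSq.zero
  | sq_add a _ ih => rw [map_add, map_mul]; exact IsSumSq.sq_add _ ih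

theorem hasSystem_add {F : Type u} [Field F] (hF : IsSumSq (-1 : F)) {r s n m : ℕ}
    (h : HasSystem F r n) (h' : HasSystem F s m) : HasSystem F (r + s) (n + m) := by
  rw [hasSystem_iff hF] at *
  obtain ⟨q, hq⟩ := h
  obtain ⟨q', hq'⟩ := h'
  exact exists_prod q hq q' hq'

theorem hasSystem_self {F : Type u} [Field F] (hF : IsSumSq (-1 : F)) (r : ℕ) :
    HasSystem F r r := (hasSystem_iff hF).2 (exists_squares F r)

theorem nonempty_system (F : Type u) [Field F] (r : ℕ) :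
    Nonempty {n : ℕ // HasSystem F r n} :=
  ⟨⟨0, 0, fun _ _ => Subsingleton.elim _ _, 1, one_pos, ⊥, by simp, fun x hx => by
    rw [(Submodule.mem_bot F).1 hx]; simp⟩⟩

/-- The three-block inequality. -/
theorem three_blocks (K : Type u) [Field K] (hK : IsSumSq (-1 : K)) (r a b c : ℕ) (ha : a ≤ r)
    (hb : b ≤ r) (hc : c ≤ r) (habc : a + b + c = 2 * r) :
    sysU K a + sysU K b + sysU K c ≤ sysU (LaurentSeries K) r := by
  have hL : IsSumSq (-1 : LaurentSeries K) := by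
    have := isSumSq_map hK
    rwa [map_neg, map_one] at this
  obtain ⟨α, hα⟩ : ∃ α, a + b = r + α := ⟨a + b - r, by omega⟩
  obtain ⟨β, hβ⟩ : ∃ β, a + c = r + β := ⟨a + c - r, by omega⟩
  obtain ⟨γ, hγ⟩ : ∃ γ, b + c = r + γ := ⟨b + c - r, by omega⟩
  obtain rfl : a = α + β := by omega
  obtain rfl : b = α + γ := by omega
  obtain rfl : c = β + γ := by omega
  obtain rfl : r = α + β + γ := by omega
  have := nonempty_system K (α + β)
  have := nonempty_system K (α + γ)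
  have := nonempty_system K (β + γ)
  have key : ∀ (i : {n : ℕ // HasSystem K (α + β) n}) (j : {n : ℕ // HasSystem K (α + γ) n})
      (l : {n : ℕ // HasSystem K (β + γ) n}), ((i : ℕ) : ℕ∞) + ((j : ℕ) : ℕ∞) + ((l : ℕ) : ℕ∞) ≤
        sysU (LaurentSeries K) (α + β + γ) := by
    rintro ⟨n₁, q₁, hq₁, -⟩ ⟨n₂, q₂, hq₂, -⟩ ⟨n₃, q₃, hq₃, -⟩
    obtain ⟨Q, hQ⟩ := exists_three q₁ hq₁ q₂ hq₂ q₃ hq₃
    have h := le_sysU ((hasSystem_iff hL).2 ⟨Q, hQ⟩)
    push_cast at h
    exact h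
  have hA : ∀ (i : {n : ℕ // HasSystem K (α + β) n}) (j : {n : ℕ // HasSystem K (α + γ) n}),
      ((i : ℕ) : ℕ∞) + ((j : ℕ) : ℕ∞) + sysU K (β + γ) ≤
        sysU (LaurentSeries K) (α + β + γ) := by
    intro i j
    rw [sysU, ENat.add_iSup]
    exact iSup_le fun l => key i j l
  have hB : ∀ i : {n : ℕ // HasSystem K (α + β) n},
      ((i : ℕ) : ℕ∞) + sysU K (α + γ) + sysU K (β + γ) ≤
        sysU (LaurentSeries K) (α + β + γ) := by
    intro i
    rw [sysU.eq_1 K (α + γ), ENat.add_iSup, ENat.iSup_add]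
    exact iSup_le fun j => hA i j
  rw [sysU.eq_1 K (α + β), ENat.iSup_add, ENat.iSup_add]
  exact iSup_le fun i => hB i

end Pool.Agent.Lib.MP_25ed17_al.SU
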