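import Pool.Agent.Lib.MP_25ed17_al.Metab

/-!
The three-block system over the Laurent series field, for blocks of arbitrary sizes:
anisotropic systems of `α+β`, `α+γ`, `β+γ` forms in `n₁`, `n₂`, `n₃` variables over `K` give an
anisotropic system of `α+β+γ` forms in `n₁+n₂+n₃` variables over `K((t))`.
-/

namespace Pool.Agent.Lib.MP_25ed17_al.H5

open HahnSeries QuadraticMap Module Pool.Agent.Lib.MP_25ed17_al

section transport

variable {F V W : Type*} [Field F] [AddCommGroup V] [Module F V] [AddCommGroup W] [Module F W]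

theorem exists_transport [FiniteDimensional F V] [FiniteDimensional F W] {n r : ℕ}
    (hn : finrank F V = n) (hr : finrank F W = r)
    (Q : QuadraticMap F V W) (hQ : ∀ x, Q x = 0 → x = 0) :
    ∃ q : QuadraticMap F (Fin n → F) (Fin r → F), ∀ x, q x = 0 → x = 0 := by
  let φ : (Fin n → F) ≃ₗ[F] V := LinearEquiv.ofFinrankEq _ _ (by simp [hn])
  let ψ : W ≃ₗ[F] (Fin r → F) := LinearEquiv.ofFinrankEq _ _ (by simp [hr])
  refine ⟨ψ.toLinearMap.compQuadraticMap (Q.comp φ.toLinearMap), fun x hx => ?_⟩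
  have h1 : ψ (Q (φ x)) = 0 := hx
  exact (LinearEquiv.map_eq_zero_iff φ).1 (hQ _ ((LinearEquiv.map_eq_zero_iff ψ).1 h1))

theorem exists_squares (F : Type*) [Field F] (r : ℕ) :
    ∃ q : QuadraticMap F (Fin r → F) (Fin r → F), ∀ x, q x = 0 → x = 0 := by
  refine ⟨LinearMap.BilinMap.toQuadraticMap (LinearMap.mk₂ F
    (fun x y : Fin r → F => x * y) add_mul (fun c x y => smul_mul_assoc c x y) mul_add
    (fun c x y => mul_smul_comm c x y)), fun x hx => ?_⟩
  have h1 : x * x = 0 := hx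
  funext i
  exact mul_self_eq_zero.1 (congrFun h1 i)

theorem exists_prod {n m r s : ℕ} (q : QuadraticMap F (Fin n → F) (Fin r → F))
    (hq : ∀ x, q x = 0 → x = 0) (q' : QuadraticMap F (Fin m → F) (Fin s → F))
    (hq' : ∀ x, q' x = 0 → x = 0) :
    ∃ Q : QuadraticMap F (Fin (n + m) → F) (Fin (r + s) → F), ∀ x, Q x = 0 → x = 0 := by
  refine exists_transport (V := (Fin n → F) × (Fin m → F)) (W := (Fin r → F) × (Fin s → F))
    (by simp) (by simp)
    ((LinearMap.inl F _ _).compQuadraticMap (q.comp (LinearMap.fst F _ _)) +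
      (LinearMap.inr F _ _).compQuadraticMap (q'.comp (LinearMap.snd F _ _))) ?_
  rintro ⟨x, y⟩ h
  have h1 : ((q x, 0) + (0, q' y) : (Fin r → F) × (Fin s → F)) = 0 := h
  rw [Prod.mk_add_mk, add_zero, zero_add, Prod.mk_eq_zero] at h1
  rw [hq x h1.1, hq' y h1.2]
  rfl

end transport

variable {K : Type*} [Field K]

/-- The system with the coefficients `b` has only the trivial zero. -/
def An {n r : ℕ} (b : Fin n → Fin n → Fin r → K) : Prop :=
  ∀ v : Fin n → K, (∀ l, ∑ i, ∑ j, b i j l * (v i * v j) = 0) → v = 0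

theorem exists_coeff {n r : ℕ} (q : QuadraticMap K (Fin n → K) (Fin r → K))
    (hq : ∀ x, q x = 0 → x = 0) : ∃ b : Fin n → Fin n → Fin r → K, An b := by
  obtain ⟨β, hβ⟩ := LinearMap.BilinMap.toQuadraticMap_surjective (R := K)
    (M := Fin n → K) (N := Fin r → K) q
  let e : Fin n → (Fin n → K) := fun i j => if i = j then 1 else 0
  refine ⟨fun i j l => β (e i) (e j) l, fun v hv => hq v ?_⟩
  have h0 : q v = β v v := by rw [← hβ]; rfl
  have h1 : β v = ∑ i, v i • β (e i) := LinearMap.pi_apply_eq_sum_univ β v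
  rw [h0, h1]
  funext l
  rw [LinearMap.sum_apply, Finset.sum_apply, Pi.zero_apply, ← hv l]
  refine Finset.sum_congr rfl fun i _ => ?_
  rw [LinearMap.smul_apply, LinearMap.pi_apply_eq_sum_univ (β (e i)) v, Finset.smul_sum,
    Finset.sum_apply]
  refine Finset.sum_congr rfl fun j _ => ?_
  simp only [Pi.smul_apply, smul_eq_mul]
  change v i * (v j * β (e i) (e j) l) = _
  ring

theorem An.succ {n r : ℕ} {b : Fin n → Fin n → Fin r → K} (hb : An b)
    {x : Fin n → LaurentSeries K} {k : ℤ} (hx : ∀ i, I k (x i))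
    (h : ∀ l, (extMap b x l).coeff (k + k) = 0) : ∀ i, I (k + 1) (x i) := by
  have h1 := hb (fun i => (x i).coeff k) (fun l => by rw [← coeff_extMap b hx]; exact h l)
  intro i
  exact (hx i).succ (congrFun h1 i)

theorem first_zero {u v : LaurentSeries K} {m : ℤ} (h : u + T 1 * v = 0) (hv : I m v) :
    u.coeff m = 0 := by
  have h1 := congrArg (fun s : LaurentSeries K => s.coeff m) h
  simp only [HahnSeries.coeff_add, HahnSeries.coeff_zero, coeff_T_mul] at h1
  rw [hv _ (by linarith), add_zero] at h1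
  exact h1

theorem second_zero {u v : LaurentSeries K} {m : ℤ} (h : u + T 1 * v = 0) (hu : I (m + 2) u) :
    v.coeff m = 0 := by
  have h1 := congrArg (fun s : LaurentSeries K => s.coeff (m + 1)) h
  simp only [HahnSeries.coeff_add, HahnSeries.coeff_zero, coeff_T_mul] at h1
  rw [hu _ (by linarith), zero_add, add_sub_cancel_right] at h1
  exact h1

section blocks

variable {α β γ n₁ n₂ n₃ : ℕ} {b₁ : Fin n₁ → Fin n₁ → Fin (α + β) → K}
  {b₂ : Fin n₂ → Fin n₂ → Fin (α + γ) → K} {b₃ : Fin n₃ → Fin n₃ → Fin (β + γ) → K}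
  {x : Fin n₁ → LaurentSeries K} {y : Fin n₂ → LaurentSeries K} {z : Fin n₃ → LaurentSeries K}

theorem step (hb₁ : An b₁) (hb₂ : An b₂) (hb₃ : An b₃)
    (h1 : ∀ i : Fin α, extMap b₁ x (Fin.castAdd β i) + T 1 * extMap b₂ y (Fin.castAdd γ i) = 0)
    (h2 : ∀ i : Fin β, extMap b₁ x (Fin.natAdd α i) + T 1 * extMap b₃ z (Fin.castAdd γ i) = 0)
    (h3 : ∀ i : Fin γ, extMap b₂ y (Fin.natAdd α i) + T 1 * extMap b₃ z (Fin.natAdd β i) = 0)
    {k : ℤ} (hx : ∀ a, I k (x a)) (hy : ∀ a, I k (y a)) (hz : ∀ a, I k (z a)) :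
    (∀ a, I (k + 1) (x a)) ∧ (∀ a, I (k + 1) (y a)) ∧ ∀ a, I (k + 1) (z a) := by
  have hx' : ∀ a, I (k + 1) (x a) := by
    refine hb₁.succ hx fun i => ?_
    refine Fin.addCases (fun i => ?_) (fun i => ?_) i
    · exact first_zero (h1 i) (I_extMap _ hy _)
    · exact first_zero (h2 i) (I_extMap _ hz _)
  have e : k + 1 + (k + 1) = k + k + 2 := by ring
  have hy' : ∀ a, I (k + 1) (y a) := by
    refine hb₂.succ hy fun i => ?_
    refine Fin.addCases (fun i => ?_) (fun i => ?_) i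
    · exact second_zero (h1 i) (e ▸ I_extMap _ hx' _)
    · exact first_zero (h3 i) (I_extMap _ hz _)
  refine ⟨hx', hy', hb₃.succ hz fun i => ?_⟩
  refine Fin.addCases (fun i => ?_) (fun i => ?_) i
  · exact second_zero (h2 i) (e ▸ I_extMap _ hx' _)
  · exact second_zero (h3 i) (e ▸ I_extMap _ hy' _)

theorem all_zero (hb₁ : An b₁) (hb₂ : An b₂) (hb₃ : An b₃)
    (h1 : ∀ i : Fin α, extMap b₁ x (Fin.castAdd β i) + T 1 * extMap b₂ y (Fin.castAdd γ i) = 0)
    (h2 : ∀ i : Fin β, extMap b₁ x (Fin.natAdd α i) + T 1 * extMap b₃ z (Fin.castAdd γ i) = 0)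
    (h3 : ∀ i : Fin γ, extMap b₂ y (Fin.natAdd α i) + T 1 * extMap b₃ z (Fin.natAdd β i) = 0) :
    x = 0 ∧ y = 0 ∧ z = 0 := by
  have hk : ∀ {N : ℕ} (u : Fin N → LaurentSeries K), ∃ k, ∀ a, I k (u a) := by
    intro N u
    choose f hf using fun a => exists_I (u a)
    refine ⟨-∑ a, |f a|, fun a => (hf a).mono ?_⟩
    have h4 : |f a| ≤ ∑ a, |f a| :=
      Finset.single_le_sum (f := fun a => |f a|) (fun i _ => abs_nonneg _) (Finset.mem_univ a)
    have h5 := neg_abs_le (f a)
    linarith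
  obtain ⟨kx, hkx⟩ := hk x
  obtain ⟨ky, hky⟩ := hk y
  obtain ⟨kz, hkz⟩ := hk z
  set k := min kx (min ky kz) with hkdef
  have main : ∀ n : ℕ, (∀ a, I (k + n) (x a)) ∧ (∀ a, I (k + n) (y a)) ∧
      ∀ a, I (k + n) (z a) := by
    intro n
    induction n with
    | zero =>
      rw [Nat.cast_zero, add_zero]
      exact ⟨fun a => (hkx a).mono (min_le_left _ _),
        fun a => (hky a).mono ((min_le_right _ _).trans (min_le_left _ _)),
        fun a => (hkz a).mono ((min_le_right _ _).trans (min_le_right _ _))⟩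
    | succ n ih =>
      have h5 := step hb₁ hb₂ hb₃ h1 h2 h3 ih.1 ih.2.1 ih.2.2
      have e : k + ((n + 1 : ℕ) : ℤ) = k + n + 1 := by push_cast; ring
      rw [e]
      exact h5
  have hzero : ∀ {N : ℕ} (u : Fin N → LaurentSeries K), (∀ n : ℕ, ∀ a, I (k + n) (u a)) → u = 0 := by
    intro N u hu
    funext a
    refine eq_zero_of_I fun n => ?_
    refine (hu (n + k.natAbs) a).mono ?_
    push_cast
    have := neg_abs_le k
    linarith
  exact ⟨hzero _ fun n => (main n).1, hzero _ fun n => (main n).2.1,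
    hzero _ fun n => (main n).2.2⟩

end blocks

section maps

variable {L : Type*} [Field L] (t : L) (α β γ : ℕ)

/-- The contribution of the first block. -/
def S₁ : (Fin (α + β) → L) →ₗ[L] (Fin α ⊕ Fin β ⊕ Fin γ → L) where
  toFun v := Sum.elim (fun i => v (Fin.castAdd β i)) (Sum.elim (fun i => v (Fin.natAdd α i)) 0)
  map_add' u v := by
    funext i
    rcases i with i | i | i <;> simp
  map_smul' c v := by
    funext i
    rcases i with i | i | i <;> simp

/-- The contribution of the second block. -/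
def S₂ : (Fin (α + γ) → L) →ₗ[L] (Fin α ⊕ Fin β ⊕ Fin γ → L) where
  toFun v := Sum.elim (fun i => t * v (Fin.castAdd γ i))
    (Sum.elim 0 (fun i => v (Fin.natAdd α i)))
  map_add' u v := by
    funext i
    rcases i with i | i | i <;> simp [mul_add]
  map_smul' c v := by
    funext i
    rcases i with i | i | i <;> simp [mul_left_comm]

/-- The contribution of the third block. -/
def S₃ : (Fin (β + γ) → L) →ₗ[L] (Fin α ⊕ Fin β ⊕ Fin γ → L) where
  toFun v := Sum.elim 0
    (Sum.elim (fun i => t * v (Fin.castAdd γ i)) (fun i => t * v (Fin.natAdd β i)))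
  map_add' u v := by
    funext i
    rcases i with i | i | i <;> simp [mul_add]
  map_smul' c v := by
    funext i
    rcases i with i | i | i <;> simp [mul_left_comm]

end maps

/-- The three-block system. -/
theorem exists_three {α β γ n₁ n₂ n₃ : ℕ}
    (q₁ : QuadraticMap K (Fin n₁ → K) (Fin (α + β) → K)) (hq₁ : ∀ x, q₁ x = 0 → x = 0)
    (q₂ : QuadraticMap K (Fin n₂ → K) (Fin (α + γ) → K)) (hq₂ : ∀ x, q₂ x = 0 → x = 0)
    (q₃ : QuadraticMap K (Fin n₃ → K) (Fin (β + γ) → K)) (hq₃ : ∀ x, q₃ x = 0 → x = 0) :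
    ∃ Q : QuadraticMap (LaurentSeries K) (Fin (n₁ + n₂ + n₃) → LaurentSeries K)
      (Fin (α + β + γ) → LaurentSeries K), ∀ x, Q x = 0 → x = 0 := by
  obtain ⟨b₁, hb₁⟩ := exists_coeff q₁ hq₁
  obtain ⟨b₂, hb₂⟩ := exists_coeff q₂ hq₂
  obtain ⟨b₃, hb₃⟩ := exists_coeff q₃ hq₃
  let L := LaurentSeries K
  refine exists_transport (F := L) (V := (Fin n₁ → L) × (Fin n₂ → L) × (Fin n₃ → L))
    (W := Fin α ⊕ Fin β ⊕ Fin γ → L) (by simp [add_assoc]) (by simp [add_assoc])
    ((S₁ α β γ).compQuadraticMap ((extMap b₁).comp (LinearMap.fst L _ _)) +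
      (S₂ (T 1 : L) α β γ).compQuadraticMap
        ((extMap b₂).comp ((LinearMap.fst L _ _).comp (LinearMap.snd L _ _))) +
      (S₃ (T 1 : L) α β γ).compQuadraticMap
        ((extMap b₃).comp ((LinearMap.snd L _ _).comp (LinearMap.snd L _ _)))) ?_
  rintro ⟨x, y, z⟩ h
  have h0 : S₁ α β γ (extMap b₁ x) + S₂ (T 1 : L) α β γ (extMap b₂ y) +
      S₃ (T 1 : L) α β γ (extMap b₃ z) = 0 := h
  obtain ⟨hx, hy, hz⟩ := all_zero (x := x) (y := y) (z := z) hb₁ hb₂ hb₃
    (fun i => by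
      have h1 := congrFun h0 (Sum.inl i)
      simpa [S₁, S₂, S₃] using h1)
    (fun i => by
      have h1 := congrFun h0 (Sum.inr (Sum.inl i))
      simpa [S₁, S₂, S₃] using h1)
    (fun i => by
      have h1 := congrFun h0 (Sum.inr (Sum.inr i))
      simpa [S₁, S₂, S₃] using h1)
  rw [hx, hy, hz]
  rfl

end Pool.Agent.Lib.MP_25ed17_al.H5
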